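import Pool.Agent.Helper65.SG.Goals

/-!
# Packet SGT-FRPO: the norm frame of polynomials
-/

set_option autoImplicit false

open MvPolynomial

namespace Pool.Agent.Helper73.SGT

open Pool.Agent.Helper42.SG Pool.Agent.Helper65.SG

theorem rpw_one {σ : Type} (α : σ →₀ ℕ) : rpw (fun _ : σ => (1 : ℝ)) α = 1 := by
  unfold rpw
  simp [Finsupp.prod]

theorem coe_algebraMap' {K : Type} [Field K] {σ : Type} (k : K) :
    ((algebraMap K (MvPolynomial σ K) k : MvPolynomial σ K) : MvPowerSeries σ K) =
      algebraMap K (MvPowerSeries σ K) k := by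
  rw [MvPolynomial.algebraMap_eq, MvPolynomial.coe_C, MvPowerSeries.algebraMap_apply]
  rfl

theorem t_FRPO (h : FRPS) : Pool.Agent.Helper65.SG.FRPO := by
  intro K _ v σ _
  obtain ⟨h1, h2⟩ := h K v σ (fun _ => 1) (fun _ => one_pos)
  refine ⟨⟨?_, ?_, ?_, ?_, ?_, ?_⟩, ?_, ?_⟩
  · intro k
    unfold NPol
    rw [coe_algebraMap']
    exact h1.const k
  · intro f g S T hf hg
    unfold NPol at *
    rw [MvPolynomial.coe_mul]
    exact h1.mul _ _ _ _ hf hg
  · intro f g S T hf hg
    unfold NPol at *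
    rw [MvPolynomial.coe_add]
    exact h1.add _ _ _ _ hf hg
  · intro hv f g S T hf hg
    unfold NPol at *
    rw [MvPolynomial.coe_add]
    exact h1.max hv _ _ _ _ hf hg
  · intro f S T hf hST
    exact h1.mono _ _ _ hf hST
  · intro f T hf
    exact h1.nonneg _ _ hf
  · intro i
    classical
    have h0 : ∀ α : σ →₀ ℕ, v (MvPowerSeries.coeff α ((X i : MvPolynomial σ K) :
        MvPowerSeries σ K)) * rpw (fun _ : σ => (1 : ℝ)) α =
        if α = Finsupp.single i 1 then 1 else 0 := by
      intro α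
      rw [rpw_one, mul_one, MvPolynomial.coe_X, MvPowerSeries.coeff_X]
      split_ifs <;> simp
    refine ⟨zero_le_one, ?_, ?_⟩
    · intro _ α
      rw [h0]
      split_ifs <;> norm_num
    · intro _ S
      simp_rw [h0]
      rw [Finset.sum_ite_eq' S (Finsupp.single i 1) (fun _ => (1 : ℝ))]
      split_ifs <;> norm_num
  · intro f T m hf
    have h3 := h2 _ T m hf
    rw [rpw_one, mul_one, MvPolynomial.coeff_coe] at h3
    exact h3

end Pool.Agent.Helper73.SGT
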